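import Pool.Agent.H12.QN.Stmts

set_option autoImplicit false

namespace Pool.QN

open Finset MeasureTheory

theorem fei_ee_add (s t : ℝ) : ee (s + t) = ee s * ee t := by
  unfold ee
  rw [← Complex.exp_add]
  congr 1
  push_cast
  ring

theorem fei_ee_conj (t : ℝ) : (starRingEnd ℂ) (ee t) = ee (-t) := by
  unfold ee
  rw [← Complex.exp_conj]
  congr 1
  rw [map_mul, Complex.conj_I, Complex.conj_ofReal]
  push_cast
  ring

theorem fei_norm_ee (t : ℝ) : ‖ee t‖ = 1 := by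
  unfold ee
  exact Complex.norm_exp_ofReal_mul_I _

theorem fei_cont_ee : Continuous ee := by
  unfold ee
  fun_prop

theorem fei_expand (L : ℕ) (t : ℝ) :
    ((‖DD L t‖ ^ 2 : ℝ) : ℂ) = ∑ k ∈ range L, ∑ l ∈ range L, ee (((k : ℝ) - l) * t) := by
  rw [← Complex.normSq_eq_norm_sq, ← Complex.mul_conj]
  unfold DD
  rw [map_sum, Finset.sum_mul_sum]
  refine Finset.sum_congr rfl fun k _ => Finset.sum_congr rfl fun l _ => ?_
  rw [fei_ee_conj, ← fei_ee_add]
  congr 1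
  ring

theorem fei_thm : FEIStmt := by
  intro c B φ φ1 φ2 hC g hg hb j q
  obtain ⟨M, hM⟩ := hb
  have hφ : ContinuousOn φ (Set.Icc (-1) 1) := fun x hx => (hC.d1 x hx).continuousWithinAt
  have hfin : IsFiniteMeasure mu := by
    unfold mu
    infer_instance
  have hFi : ∀ m : ℤ, Integrable (fun x => (g x : ℂ) * ee ((m : ℝ) * φ x)) mu := by
    intro m
    refine Integrable.of_bound (C := M) ?_ (Filter.Eventually.of_forall fun x => ?_)
    · refine (Complex.continuous_ofReal.comp_aestronglyMeasurable hg).mul ?_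
      have h1 : ContinuousOn (fun x => ee ((m : ℝ) * φ x)) (Set.Icc (-1) 1) :=
        fei_cont_ee.comp_continuousOn (continuousOn_const.mul hφ)
      exact h1.aestronglyMeasurable measurableSet_Icc
    · rw [norm_mul, fei_norm_ee, mul_one, Complex.norm_real]
      exact hM x
  have key : ∀ x y : ℝ, ((g x * g y * Fj j (q * (φ x - φ y)) : ℝ) : ℂ) =
      (∑ k ∈ range (2 ^ j), ∑ l ∈ range (2 ^ j),
        ((g x : ℂ) * ee (((q * ((k : ℤ) - l) : ℤ) : ℝ) * φ x)) *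
          (starRingEnd ℂ) ((g y : ℂ) * ee (((q * ((k : ℤ) - l) : ℤ) : ℝ) * φ y))) / 2 ^ j := by
    intro x y
    have h0 : (Fj j (q * (φ x - φ y)) : ℝ) = ‖DD (2 ^ j) (q * (φ x - φ y))‖ ^ 2 / 2 ^ j := rfl
    rw [h0, Complex.ofReal_mul, Complex.ofReal_mul, Complex.ofReal_div, fei_expand, mul_div_assoc']
    congr 1
    · rw [Finset.mul_sum]
      refine Finset.sum_congr rfl fun k _ => ?_
      rw [Finset.mul_sum]
      refine Finset.sum_congr rfl fun l _ => ?_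
      rw [map_mul, Complex.conj_ofReal, fei_ee_conj, mul_mul_mul_comm, ← fei_ee_add]
      congr 2
      push_cast
      ring
    · push_cast
      rfl
  have hprod : ∀ m : ℤ, Integrable (fun p : ℝ × ℝ => ((g p.1 : ℂ) * ee ((m : ℝ) * φ p.1)) *
      (starRingEnd ℂ) ((g p.2 : ℂ) * ee ((m : ℝ) * φ p.2))) (mu.prod mu) := by
    intro m
    have h1 : Integrable (fun y => (starRingEnd ℂ) ((g y : ℂ) * ee ((m : ℝ) * φ y))) mu :=
      (Complex.conjCLE.toContinuousLinearMap.integrable_comp (hFi m) : _)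
    exact (hFi m).mul_prod h1
  have e1 : ((∫ p, g p.1 * g p.2 * Fj j (q * (φ p.1 - φ p.2)) ∂(mu.prod mu) : ℝ) : ℂ) =
      (∑ k ∈ range (2 ^ j), ∑ l ∈ range (2 ^ j),
        (((‖∫ x, (g x : ℂ) * ee (((q * ((k : ℤ) - l) : ℤ) : ℝ) * φ x) ∂mu‖ ^ 2 : ℝ)) : ℂ)) /
          2 ^ j := by
    rw [← integral_complex_ofReal]
    have h2 : (fun p : ℝ × ℝ => ((g p.1 * g p.2 * Fj j (q * (φ p.1 - φ p.2)) : ℝ) : ℂ)) =
        fun p : ℝ × ℝ => (∑ k ∈ range (2 ^ j), ∑ l ∈ range (2 ^ j),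
        ((g p.1 : ℂ) * ee (((q * ((k : ℤ) - l) : ℤ) : ℝ) * φ p.1)) *
          (starRingEnd ℂ) ((g p.2 : ℂ) * ee (((q * ((k : ℤ) - l) : ℤ) : ℝ) * φ p.2))) / 2 ^ j :=
      funext fun p => key p.1 p.2
    have h3 : (∫ p, ((g p.1 * g p.2 * Fj j (q * (φ p.1 - φ p.2)) : ℝ) : ℂ) ∂(mu.prod mu)) =
        ∫ p, (∑ k ∈ range (2 ^ j), ∑ l ∈ range (2 ^ j),
        ((g p.1 : ℂ) * ee (((q * ((k : ℤ) - l) : ℤ) : ℝ) * φ p.1)) *
          (starRingEnd ℂ) ((g p.2 : ℂ) * ee (((q * ((k : ℤ) - l) : ℤ) : ℝ) * φ p.2))) / 2 ^ j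
          ∂(mu.prod mu) := by
      rw [← h2]
    refine h3.trans ?_
    rw [integral_div]
    congr 1
    rw [integral_finsetSum _ fun k _ => integrable_finsetSum _ fun l _ => hprod _]
    refine Finset.sum_congr rfl fun k _ => ?_
    rw [integral_finsetSum _ fun l _ => hprod _]
    refine Finset.sum_congr rfl fun l _ => ?_
    rw [integral_prod_mul (fun x => (g x : ℂ) * ee (((q * ((k : ℤ) - l) : ℤ) : ℝ) * φ x))
      (fun y => (starRingEnd ℂ) ((g y : ℂ) * ee (((q * ((k : ℤ) - l) : ℤ) : ℝ) * φ y))),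
      integral_conj, Complex.mul_conj, Complex.normSq_eq_norm_sq]
  apply Complex.ofReal_injective
  rw [e1]
  push_cast
  rfl

end Pool.QN
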