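import Pool.Agent.H79.QN.Stmts

set_option autoImplicit false

namespace Pool.Agent.H79.QN

open Finset

/-- an element of `J` far from the minimum and from the maximum -/
theorem ac3_median (J : Finset ℤ) (hne : J.Nonempty) (hJ : 3 ≤ J.card) :
    ∃ j₁ ∈ J, (((J.card + 5) / 6 : ℕ) : ℤ) ≤ j₁ - J.min' hne ∧
      (((J.card + 5) / 6 : ℕ) : ℤ) ≤ J.max' hne - j₁ := by
  by_contra hcon
  push Not at hcon
  have hsub : J ⊆ Finset.Ico (J.min' hne) (J.min' hne + (((J.card + 5) / 6 : ℕ) : ℤ)) ∪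
      Finset.Ioc (J.max' hne - (((J.card + 5) / 6 : ℕ) : ℤ)) (J.max' hne) := by
    intro j hj
    rw [Finset.mem_union, Finset.mem_Ico, Finset.mem_Ioc]
    have h1 := J.min'_le j hj
    have h2 := J.le_max' j hj
    by_cases h : (((J.card + 5) / 6 : ℕ) : ℤ) ≤ j - J.min' hne
    · have h3 := hcon j hj h
      right
      constructor <;> omega
    · left
      constructor <;> omega
  have h1 := (Finset.card_le_card hsub).trans (Finset.card_union_le _ _)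
  rw [Int.card_Ico, Int.card_Ioc] at h1
  omega

theorem ac3_span (J : Finset ℤ) (hne : J.Nonempty) :
    (J.card : ℤ) ≤ J.max' hne - J.min' hne + 1 := by
  have hsub : J ⊆ Finset.Icc (J.min' hne) (J.max' hne) := by
    intro j hj
    rw [Finset.mem_Icc]
    exact ⟨J.min'_le j hj, J.le_max' j hj⟩
  have h1 := Finset.card_le_card hsub
  rw [Int.card_Icc] at h1
  have h2 := J.min'_le _ (J.max'_mem hne)
  omega

/-- row AC3 -/
theorem ac3 : S_AC3 := by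
  intro J a b K ha hK hJ hq
  have hne : J.Nonempty := Finset.card_pos.1 (by omega)
  obtain ⟨j₁, hj₁, h1, h2⟩ := ac3_median J hne hJ
  have h3 := ac3_span J hne
  have hj₀ := J.min'_mem hne
  have hj₂ := J.max'_mem hne
  generalize J.min' hne = j₀ at *
  generalize J.max' hne = j₂ at *
  have hn : (3 : ℝ) ≤ J.card := by exact_mod_cast hJ
  have hx : (J.card : ℝ) / 6 ≤ (j₁ : ℝ) - j₀ := by
    have h4 : (J.card : ℤ) ≤ 6 * (j₁ - j₀) := by omega
    have h5 : (J.card : ℝ) ≤ 6 * ((j₁ : ℝ) - j₀) := by exact_mod_cast h4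
    linarith
  have hy : (J.card : ℝ) / 6 ≤ (j₂ : ℝ) - j₁ := by
    have h4 : (J.card : ℤ) ≤ 6 * (j₂ - j₁) := by omega
    have h5 : (J.card : ℝ) ≤ 6 * ((j₂ : ℝ) - j₁) := by exact_mod_cast h4
    linarith
  have hxy : (J.card : ℝ) ≤ (j₂ : ℝ) - j₀ + 1 := by exact_mod_cast h3
  have hq1 := hq _ hj₂ _ hj₁
  have hq0 := hq _ hj₁ _ hj₀
  generalize (J.card : ℝ) = n at *
  have hn0 : 0 < n := by linarith
  -- the two slopes
  have e2 : (a * (j₂ : ℝ) ^ 2 + 2 * b * j₂) - (a * (j₁ : ℝ) ^ 2 + 2 * b * j₁) =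
      ((j₂ : ℝ) - j₁) * (a * ((j₂ : ℝ) - j₁) + 2 * (a * j₁ + b)) := by ring
  have e1 : (a * (j₁ : ℝ) ^ 2 + 2 * b * j₁) - (a * (j₀ : ℝ) ^ 2 + 2 * b * j₀) =
      -(((j₁ : ℝ) - j₀) * (a * ((j₁ : ℝ) - j₀) - 2 * (a * j₁ + b))) := by ring
  rw [e2] at hq1
  rw [e1, abs_neg] at hq0
  have hq1' := (abs_le.1 hq1).2
  have hq0' := (abs_le.1 hq0).2
  have key : ∀ x s : ℝ, n / 6 ≤ x → x * s ≤ K → n * s ≤ 6 * K := by
    intro x s hx hs
    by_cases h : 0 ≤ s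
    · have := mul_le_mul_of_nonneg_right hx h
      linarith
    · push Not at h
      have := mul_neg_of_pos_of_neg hn0 h
      linarith
  have k2 := key _ _ hy hq1'
  have k0 := key _ _ hx hq0'
  have hay : 0 ≤ n * (a * ((j₂ : ℝ) - j₁)) :=
    mul_nonneg hn0.le (mul_nonneg ha.le (by linarith))
  have hax : 0 ≤ n * (a * ((j₁ : ℝ) - j₀)) :=
    mul_nonneg hn0.le (mul_nonneg ha.le (by linarith))
  have hA : a * n ^ 2 ≤ 18 * K := by
    have h4 : n * a * (2 * n / 3) ≤ n * a * ((j₂ : ℝ) - j₀) :=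
      mul_le_mul_of_nonneg_left (by linarith) (mul_nonneg hn0.le ha.le)
    nlinarith
  refine ⟨by linarith, ?_⟩
  intro j hj
  have hqj := (abs_le.1 (hq j hj j₁ hj₁)).2
  have hg : |n * (2 * (a * (j₁ : ℝ) + b))| ≤ 6 * K := by
    rw [abs_le]
    constructor <;> nlinarith
  have hg2 : (n * (2 * (a * (j₁ : ℝ) + b))) ^ 2 ≤ (6 * K) ^ 2 := by
    rw [← sq_abs]
    exact pow_le_pow_left₀ (abs_nonneg _) hg 2
  have e3 : (n * (2 * (a * (j : ℝ) + b))) ^ 2 = (n * (2 * (a * (j₁ : ℝ) + b))) ^ 2 +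
      4 * (a * n ^ 2) * ((a * (j : ℝ) ^ 2 + 2 * b * j) - (a * (j₁ : ℝ) ^ 2 + 2 * b * j₁)) := by
    ring
  have h5 : 4 * (a * n ^ 2) * ((a * (j : ℝ) ^ 2 + 2 * b * j) - (a * (j₁ : ℝ) ^ 2 + 2 * b * j₁)) ≤
      4 * (18 * K) * K := by
    have h6 : 0 ≤ a * n ^ 2 := by positivity
    calc _ ≤ 4 * (a * n ^ 2) * K := mul_le_mul_of_nonneg_left hqj (by positivity)
      _ ≤ 4 * (18 * K) * K := by
        apply mul_le_mul_of_nonneg_right _ hK
        linarith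
  have h7 : (n * (2 * (a * (j : ℝ) + b))) ^ 2 ≤ (20 * K) ^ 2 := by
    rw [e3]
    nlinarith [sq_nonneg K]
  have h8 := abs_le_of_sq_le_sq h7 (by linarith)
  have h9 : |2 * (a * (j : ℝ) + b)| * n = |n * (2 * (a * (j : ℝ) + b))| := by
    rw [abs_mul n, abs_of_pos hn0, mul_comm]
  rw [h9]
  exact h8

end Pool.Agent.H79.QN
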